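import Pool.Agent.Work.MP_bde882_al_red.Homog
import Pool.Agent.Work.MP_bde882_al_red.DerAll
import Pool.Agent.Work.MP_bde882_al_tc.Fin
import Pool.Agent.Work.MP_bde882_al_h62.LeavesHH

/-!
The chain of reductions of the frozen statement, with the prime kept explicit.
-/

set_option autoImplicit false

namespace Pool.Agent.Work.MP_bde882_al.Red

open Finset
open Pool.Agent.Work.MP_bde882_al.H93 (LieD)

/-- there is a finite `p`-group with a non-trivial Hughes subgroup of index `p ^ 3` -/
def GoalP (p : ℕ) : Prop :=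
    ∃ (G : Type) (_ : Group G) (_ : Finite G),
      p.Prime ∧ IsPGroup p G ∧
      Subgroup.closure {x : G | orderOf x ≠ p} ≠ ⊥ ∧
      (Subgroup.closure {x : G | orderOf x ≠ p}).index = p ^ 3


theorem gp_of_dvd {p : ℕ} (hp : p.Prime) (G : Type) [Group G] [Finite G] (hG : IsPGroup p G)
    (hne : Subgroup.closure {x : G | orderOf x ≠ p} ≠ ⊥)
    (hdvd : p ^ 3 ∣ (Subgroup.closure {x : G | orderOf x ≠ p}).index) : GoalP p := by
  have hfact := Fact.mk hp
  set H := Subgroup.closure {x : G | orderOf x ≠ p} with hH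
  obtain ⟨n, hn⟩ := IsPGroup.iff_card.1 (hG.to_subgroup H)
  have hcard : Nat.card H * H.index = Nat.card G := Subgroup.card_mul_index H
  have h1 : p ^ (n + 3) ∣ Nat.card G := by
    rw [← hcard, hn, pow_add]
    exact mul_dvd_mul_left _ hdvd
  obtain ⟨K, hK, hHK⟩ := Sylow.exists_subgroup_card_pow_prime_le p h1 H hn (by omega)
  have himg : (K.subtype '' {x : K | orderOf x ≠ p}) = {x : G | orderOf x ≠ p} := by
    ext x
    constructor
    · rintro ⟨y, hy, rfl⟩
      simpa using hy
    · intro hx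
      have hxH : x ∈ H := Subgroup.subset_closure hx
      refine ⟨⟨x, hHK hxH⟩, ?_, rfl⟩
      simpa [Subgroup.orderOf_mk] using hx
  have hmap : (Subgroup.closure {x : K | orderOf x ≠ p}).map K.subtype = H := by
    rw [MonoidHom.map_closure, himg]
  have heq : Subgroup.closure {x : K | orderOf x ≠ p} = H.subgroupOf K := by
    rw [← hmap]
    exact (Subgroup.comap_map_eq_self_of_injective K.subtype_injective _).symm
  refine ⟨K, inferInstance, inferInstance, hp, hG.to_subgroup K, ?_, ?_⟩
  · intro hbot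
    apply hne
    rw [← hmap, hbot, Subgroup.map_bot]
  · rw [heq]
    have h2 : Nat.card (H.subgroupOf K) * (H.subgroupOf K).index = Nat.card K :=
      Subgroup.card_mul_index _
    have h3 : Nat.card (H.subgroupOf K) = p ^ n := by
      rw [← hn]
      exact Nat.card_congr (Subgroup.subgroupOfEquivOfLe hHK).toEquiv
    rw [h3, hK, pow_add] at h2
    exact Nat.eq_of_mul_eq_mul_left (pow_pos hp.pos n) h2

section semidirect

variable {N Γ : Type} [CommGroup N] [Group Γ] (φ : Γ →* MulAut N)


theorem gp_of_semidirect {p : ℕ} (hp : p.Prime) [Finite N] [Finite Γ]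
    (hΓ : IsPGroup p Γ) (hN : IsPGroup p N) (K : Subgroup Γ) (hK : p ^ 3 ∣ K.index)
    (hpow : ∀ x : Γ, x ∉ K → x ^ p = 1)
    (hnorm : ∀ x : Γ, x ∉ K → ∀ v : N, ∏ i ∈ range p, φ (x ^ i) v = 1)
    (v₀ : N) (hv₀ : v₀ ^ p ≠ 1) : GoalP p := by
  have hfact := Fact.mk hp
  have hfinN : Finite (N ⋊[φ] Γ) := Finite.of_equiv (N × Γ) SemidirectProduct.equivProd.symm
  have hord : ∀ z : N ⋊[φ] Γ, z.right ∉ K → orderOf z = p := by
    intro z hz
    have hz' : z = ⟨z.left, z.right⟩ := rfl
    refine orderOf_eq_prime ?_ ?_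
    · rw [hz', semi_pow]
      ext
      · simpa using hnorm _ hz z.left
      · simpa using hpow _ hz
    · intro h1
      apply hz
      rw [h1]
      exact K.one_mem
  have hle : Subgroup.closure {z : N ⋊[φ] Γ | orderOf z ≠ p} ≤
      K.comap (SemidirectProduct.rightHom (φ := φ)) := by
    rw [Subgroup.closure_le]
    intro z hz
    by_contra hcon
    exact hz (hord z hcon)
  refine gp_of_dvd hp (N ⋊[φ] Γ) ?_ ?_ ?_
  · obtain ⟨a, ha⟩ := IsPGroup.iff_card.1 hN
    obtain ⟨b, hb⟩ := IsPGroup.iff_card.1 hΓ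
    refine IsPGroup.iff_card.2 ⟨a + b, ?_⟩
    rw [Nat.card_congr (SemidirectProduct.equivProd (φ := φ)), Nat.card_prod, ha, hb, pow_add]
  · intro hbot
    have hmem : (⟨v₀, 1⟩ : N ⋊[φ] Γ) ∈ Subgroup.closure {z : N ⋊[φ] Γ | orderOf z ≠ p} := by
      apply Subgroup.subset_closure
      intro ho
      have h1 : ((⟨v₀, 1⟩ : N ⋊[φ] Γ)) ^ p = 1 := by
        rw [← ho]
        exact pow_orderOf_eq_one _
      rw [semi_pow] at h1
      have h2 := congrArg SemidirectProduct.left h1
      simp at h2
      exact hv₀ h2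
    rw [hbot, Subgroup.mem_bot] at hmem
    have h3 := congrArg SemidirectProduct.left hmem
    simp at h3
    apply hv₀
    rw [h3, one_pow]
  · have h1 : (K.comap (SemidirectProduct.rightHom (φ := φ))).index = K.index :=
      Subgroup.index_comap_of_surjective _ SemidirectProduct.rightHom_surjective
    rw [← h1] at hK
    exact hK.trans (Subgroup.index_dvd_of_le hle)

end semidirect

section functions

variable {p : ℕ} {P A : Type} [Group P] [Group A] (π : P →* A)


theorem gp_of_fun_pgroup (hp : p.Prime) [Finite P] [Finite A] (hP : IsPGroup p P)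
    (hA : Nat.card A = p ^ 3) (hπ : Function.Surjective π) (ψ : P → ZMod p)
    (h : ∀ u g : P, π g ≠ 1 → ∑ i ∈ range p, ψ (u * g ^ i) = -1) : GoalP p := by
  have hfact := Fact.mk hp
  have hnz : NeZero (p ^ 2) := ⟨pow_ne_zero 2 hp.ne_zero⟩
  -- the function χ
  let χ₀ : P → ZMod (p ^ 2) := fun u => 1 + (p : ZMod (p ^ 2)) * ((ψ u).val : ZMod (p ^ 2))
  have hχ₀ : χ₀ ∈ modM π p := by
    intro g hg u
    have h1 := h u g hg
    have h2 : ((1 + ∑ i ∈ range p, (ψ (u * g ^ i)).val : ℕ) : ZMod p) = 0 := by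
      push_cast
      simp only [ZMod.natCast_val, ZMod.cast_id', id_eq]
      rw [h1]
      ring
    rw [ZMod.natCast_eq_zero_iff] at h2
    obtain ⟨k, hk⟩ := h2
    have h3 : ∑ i ∈ range p, χ₀ (u * g ^ i)
        = ((p * (1 + ∑ i ∈ range p, (ψ (u * g ^ i)).val) : ℕ) : ZMod (p ^ 2)) := by
      push_cast
      simp only [χ₀, sum_add_distrib, ← mul_sum, sum_const, card_range, nsmul_eq_mul, mul_one]
      ring
    rw [h3, hk, ZMod.natCast_eq_zero_iff]
    exact ⟨k, by ring⟩
  let χ : Multiplicative (modM π p) := Multiplicative.ofAdd ⟨χ₀, hχ₀⟩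
  have hp2 : ((p : ℕ) : ZMod (p ^ 2)) ≠ 0 := by
    rw [Ne, ZMod.natCast_eq_zero_iff]
    intro hd
    have := Nat.le_of_dvd hp.pos hd
    have h2 := hp.two_le
    nlinarith
  have hpχ : ∀ u : P, (p : ZMod (p ^ 2)) * χ₀ u = (p : ℕ) := by
    intro u
    simp only [χ₀]
    have h4 : (p : ZMod (p ^ 2)) * (p : ZMod (p ^ 2)) = 0 := by
      rw [← Nat.cast_mul, ZMod.natCast_eq_zero_iff]
      exact ⟨1, by ring⟩
    linear_combination ((ψ u).val : ZMod (p ^ 2)) * h4
  -- kernel of the action
  have hker : ∀ g : P, translHom (p := p) π g = 1 → π g = 1 := by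
    intro g hg
    by_contra hne
    have h1 : ∀ u : P, χ₀ (u * g) = χ₀ u := by
      intro u
      have h2 := translHom_apply π g χ u
      rw [hg] at h2
      exact h2.symm
    have h3 : ∀ i : ℕ, χ₀ (1 * g ^ i) = χ₀ 1 := by
      intro i
      induction i with
      | zero => simp
      | succ i ih => rw [pow_succ g i, ← mul_assoc, h1, ih]
    have h4 := hχ₀ g hne 1
    rw [sum_congr rfl (fun i _ => h3 i), sum_const, card_range, nsmul_eq_mul, hpχ] at h4
    exact hp2 h4
  have hpowp : ∀ g : P, π g ≠ 1 → translHom (p := p) π (g ^ p) = 1 := by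
    intro g hg
    apply MulEquiv.ext
    intro F
    apply Multiplicative.toAdd.injective
    apply Subtype.ext
    funext u
    rw [translHom_apply]
    have h1 := (Multiplicative.toAdd F).2 g hg u
    have h2 := (Multiplicative.toAdd F).2 g hg (u * g)
    have h3 : ∑ i ∈ range p, (Multiplicative.toAdd F).1 (u * g ^ (i + 1)) = 0 := by
      rw [← h2]
      refine sum_congr rfl ?_
      intro i _
      rw [pow_succ' g i, ← mul_assoc]
    have h4 := sum_range_succ' (fun i => (Multiplicative.toAdd F).1 (u * g ^ i)) p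
    have h5 := sum_range_succ (fun i => (Multiplicative.toAdd F).1 (u * g ^ i)) p
    rw [h4] at h5
    rw [h3, h1, zero_add, zero_add, pow_zero g, mul_one] at h5
    exact h5.symm
  have hfin : Finite (modM π p) := inferInstance
  have hNp : IsPGroup p (Multiplicative (modM π p)) := by
    have hdvd : Nat.card (modM π p) ∣ Nat.card (P → ZMod (p ^ 2)) :=
      AddSubgroup.card_addSubgroup_dvd_card _
    have hc : Nat.card (P → ZMod (p ^ 2)) = p ^ (2 * Nat.card P) := by
      rw [Nat.card_fun, Nat.card_zmod, ← pow_mul]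
    rw [hc] at hdvd
    obtain ⟨n, -, hn⟩ := (Nat.dvd_prime_pow hp).1 hdvd
    exact IsPGroup.iff_card.2 ⟨n, hn⟩
  let ρ := translHom (p := p) π
  let Γ := ρ.range
  let K : Subgroup Γ := π.ker.map ρ.rangeRestrict
  have hsurj : Function.Surjective ρ.rangeRestrict := ρ.rangeRestrict_surjective
  have hKmem : ∀ g : P, ρ.rangeRestrict g ∉ K → π g ≠ 1 := by
    intro g hg h1
    exact hg ⟨g, h1, rfl⟩
  have hΓp : IsPGroup p Γ := hP.of_surjective _ hsurj
  refine gp_of_semidirect (N := Multiplicative (modM π p)) (Γ := Γ) Γ.subtype hp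
    hΓp hNp K ?_ ?_ ?_ χ ?_
  · have h1 : K.index = π.ker.index := by
      have h2 : (π.ker ⊔ ρ.rangeRestrict.ker) = π.ker := by
        apply sup_eq_left.2
        intro g hg
        rw [MonoidHom.mem_ker] at hg ⊢
        apply hker
        have := congrArg Subtype.val hg
        simpa using this
      have h3 := Subgroup.index_map π.ker ρ.rangeRestrict
      rw [h2] at h3
      have h4 : ρ.rangeRestrict.range = ⊤ := MonoidHom.range_eq_top.2 hsurj
      rw [h4, Subgroup.index_top, mul_one] at h3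
      exact h3
    rw [h1]
    have h5 : π.ker.index = Nat.card A := by
      rw [Subgroup.index_ker]
      rw [MonoidHom.range_eq_top.2 hπ]
      exact Nat.card_congr Subgroup.topEquiv.toEquiv
    rw [h5, hA]
  · intro x hx
    obtain ⟨g, rfl⟩ := hsurj x
    rw [← map_pow]
    apply Subtype.ext
    exact hpowp g (hKmem g hx)
  · intro x hx v
    obtain ⟨g, rfl⟩ := hsurj x
    apply Multiplicative.toAdd.injective
    apply Subtype.ext
    funext u
    rw [prod_val]
    have h1 := (Multiplicative.toAdd v).2 g (hKmem g hx) u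
    have h2 : ∀ i : ℕ, (Multiplicative.toAdd (Γ.subtype (ρ.rangeRestrict g ^ i) v)).1 u
        = (Multiplicative.toAdd v).1 (u * g ^ i) := by
      intro i
      have h3 : Γ.subtype (ρ.rangeRestrict g ^ i) = translHom (p := p) π (g ^ i) := by
        rw [map_pow, map_pow]
        rfl
      rw [h3]
      exact translHom_apply π (g ^ i) v u
    rw [sum_congr rfl (fun i _ => h2 i), h1]
    rfl
  · intro h1
    have h2 : (Multiplicative.toAdd (χ ^ p)).1 1 = 0 := by
      rw [h1]
      rfl
    have h3 : (Multiplicative.toAdd (χ ^ p)).1 1 = (p : ZMod (p ^ 2)) * χ₀ 1 := by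
      rw [toAdd_pow, ← nsmul_eq_mul]
      rfl
    rw [h3, hpχ] at h2
    exact hp2 h2

/-- **Combinatorial criterion.** -/
theorem gp_of_fun (hp : p.Prime) [Finite P] [Finite A]
    (hA : Nat.card A = p ^ 3) (hπ : Function.Surjective π) (ψ : P → ZMod p)
    (h : ∀ u g : P, π g ≠ 1 → ∑ i ∈ range p, ψ (u * g ^ i) = -1) : GoalP p := by
  have hfact := Fact.mk hp
  obtain ⟨Q⟩ : Nonempty (Sylow p P) := inferInstance
  have hAp : IsPGroup p A := IsPGroup.iff_card.2 ⟨3, hA⟩
  have hQtop : (Q : Subgroup P).map π = ⊤ := by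
    have h1 : ((Q.mapSurjective hπ : Sylow p A) : Subgroup A) = ⊤ := by
      have h2 := (Q.mapSurjective hπ).is_maximal' (Q := ⊤)
        (hAp.to_subgroup ⊤) le_top
      exact h2.symm
    rw [← h1, Sylow.coe_mapSurjective]
  refine gp_of_fun_pgroup (P := Q) (A := A) (π.comp (Q : Subgroup P).subtype) hp Q.2 hA ?_
    (fun g => ψ g) ?_
  · intro a
    have : a ∈ (Q : Subgroup P).map π := by
      rw [hQtop]
      trivial
    obtain ⟨g, hg, rfl⟩ := this
    exact ⟨⟨g, hg⟩, rfl⟩
  · intro u g hg
    have := h u g hg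
    simpa using this

end functions

section prod

variable {P : Type} [Group P] {p : ℕ}


/-- **Criterion with coset sums `κ (v₁ v₂ v₃) ^ (p - 1)`.** -/
theorem gp_of_prod [Finite P] (hp : p.Prime) (π : P →* Multiplicative (Fin 3 → ZMod p))
    (hπ : Function.Surjective π) (ψ : P → ZMod p) (κ : ZMod p) (hκ : κ ≠ 0)
    (h : ∀ u g : P, ∑ i ∈ range p, ψ (u * g ^ i)
      = κ * ∏ i, Multiplicative.toAdd (π g) i ^ (p - 1)) : GoalP p := by
  have hfact := Fact.mk hp
  have hA : Nat.card (Multiplicative (Fin 3 → ZMod p)) = p ^ 3 := by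
    rw [Nat.card_congr Multiplicative.toAdd, Nat.card_fun, Nat.card_zmod]
    simp
  have hfin : Finite (Multiplicative (Fin 3 → ZMod p)) :=
    Nat.finite_of_card_ne_zero (by rw [hA]; exact pow_ne_zero _ hp.ne_zero)
  refine gp_of_fun (P := fib7 π) ((MonoidHom.snd _ _).comp (fib7 π).subtype) hp hA ?_
    (fun x => κ⁻¹ * ∑ s : Fin 7, sgn7 p s * ψ (x.1.1 s)) ?_
  · intro a
    choose g hg using fun s : Fin 7 => hπ (sub7 p s a)
    exact ⟨⟨(g, a), hg⟩, rfl⟩
  · intro u g hg
    have hg' : Multiplicative.toAdd g.1.2 ≠ 0 := fun h0 => hg h0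
    have h1 : ∀ i : ℕ, κ⁻¹ * ∑ s : Fin 7, sgn7 p s * ψ ((u * g ^ i).1.1 s)
        = κ⁻¹ * ∑ s : Fin 7, sgn7 p s * ψ (u.1.1 s * g.1.1 s ^ i) := by
      intro i
      rfl
    rw [sum_congr rfl (fun i _ => h1 i), ← mul_sum, sum_comm]
    have h2 : ∀ s : Fin 7, ∑ i ∈ range p, sgn7 p s * ψ (u.1.1 s * g.1.1 s ^ i)
        = κ * (sgn7 p s * ∏ i, Multiplicative.toAdd g.1.2 (idx7 s i) ^ (p - 1)) := by
      intro s
      rw [← mul_sum, h]
      have h3 : π (g.1.1 s) = sub7 p s g.1.2 := g.2 s
      rw [h3]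
      change sgn7 p s * (κ * ∏ i, Multiplicative.toAdd g.1.2 (idx7 s i) ^ (p - 1)) = _
      ring
    rw [sum_congr rfl (fun s _ => h2 s), ← mul_sum, sum7 hp _ hg']
    field_simp

end prod

section words

variable {p : ℕ}


/-- **Criterion in terms of words, full content only.** -/
theorem gp_of_words3 (hp : p.Prime) (f : List (Fin 3) → ZMod p) (κ : ZMod p) (hκ : κ ≠ 0)
    (hf : ∀ u v : List (Fin 3), csum p v (fun r => f (u ++ r))
        = if u = [] ∧ (∀ i, v.count i = p - 1) then κ else 0) : GoalP p := by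
  have hfact := Fact.mk hp
  have hV : Finite (V p (p - 1)) := Pi.finite
  let P : Subgroup (Equiv.Perm (V p (p - 1)) × Multiplicative (Fin 3 → ZMod p)) :=
    Subgroup.closure (Set.range (gen p (p - 1)))
  have hlist : ∀ g : P, ∃ J : List (Fin 3), g.1 = (J.map (gen p (p - 1))).prod := by
    intro g
    have h1 : g.1 ∈ Submonoid.closure (Set.range (gen p (p - 1))) := by
      rw [← Subgroup.closure_toSubmonoid_of_finite]
      exact g.2
    obtain ⟨l, hl, hl'⟩ := Submonoid.exists_list_of_mem_closure h1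
    have h2 : l ∈ Set.range (List.map (gen p (p - 1))) := by
      rw [Set.range_list_map]
      exact hl
    obtain ⟨J, rfl⟩ := h2
    exact ⟨J, hl'.symm⟩
  let F : V p (p - 1) := fun l => PhiS (p - 1) f univ l.1
  have hF : ∀ l, ext0 F l = PhiS (p - 1) f univ l := by
    intro l
    by_cases h : l.Nodup
    · rw [ext0, dif_pos h]
    · rw [ext0, dif_neg h, PhiS_not_nodup _ _ _ h]
  let π : P →* Multiplicative (Fin 3 → ZMod p) :=
    (MonoidHom.snd _ _).comp P.subtype
  refine gp_of_prod (P := P) hp π ?_ (fun g => ext0 (g.1.1 F) []) κ hκ ?_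
  · intro a
    let J : List (Fin 3) :=
      List.replicate (Multiplicative.toAdd a 0).val 0 ++
        (List.replicate (Multiplicative.toAdd a 1).val 1 ++
          List.replicate (Multiplicative.toAdd a 2).val 2)
    have hJ : (J.map (gen p (p - 1))).prod ∈ P := by
      refine Subgroup.list_prod_mem _ ?_
      intro x hx
      obtain ⟨i, -, rfl⟩ := List.mem_map.1 hx
      exact Subgroup.subset_closure ⟨i, rfl⟩
    refine ⟨⟨_, hJ⟩, ?_⟩
    change ((J.map (gen p (p - 1))).prod).2 = a
    rw [gen_prod_snd]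
    apply Multiplicative.toAdd.injective
    funext i
    rw [toAdd_ofAdd]
    fin_cases i <;> simp [J, List.count_replicate]
  · intro u g
    obtain ⟨Ju, hJu⟩ := hlist u
    obtain ⟨Jg, hJg⟩ := hlist g
    have h1 : ∀ i : ℕ, ext0 ((u * g ^ i).1.1 F) []
        = subS ((Ju.map (blk (p - 1))).flatten
            ++ (List.replicate i (Jg.map (blk (p - 1))).flatten).flatten)
            (PhiS (p - 1) f univ) := by
      intro i
      have h2 : (u * g ^ i).1.1
          = (((Ju.map (blk (p - 1))).flatten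
            ++ (List.replicate i (Jg.map (blk (p - 1))).flatten).flatten).map rho).prod := by
        have h3 : (u * g ^ i).1.1 = u.1.1 * (g.1.1) ^ i := by
          simp
        rw [h3, hJu, hJg, gen_prod_fst, gen_prod_fst, List.map_append, List.prod_append]
        rw [rho_pow]
      rw [h2, ext0_prod]
      refine subS_congr _ _ _ ?_
      intro s
      rw [List.nil_append, hF]
    rw [sum_congr rfl (fun i _ => h1 i)]
    rw [sum_PhiS f κ univ (fun u v => by rw [hf u v]; simp)]
    simp only [count_flat]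
    rw [prod_US (q := p - 1) univ (fun i => ((Jg.count i : ℕ) : ZMod p)), mul_comm]
    have h4 : ∀ i, Multiplicative.toAdd (π g) i = ((Jg.count i : ℕ) : ZMod p) := by
      intro i
      change Multiplicative.toAdd (g.1).2 i = _
      rw [hJg, gen_prod_snd]
      rfl
    simp only [h4]

end words

section out

variable {p : ℕ}


/-- **Final glue.** -/
theorem gp_of_long (hp : p.Prime) (F : Fn p)
    (hcont : ∀ v : List (Fin 3), (¬ ∀ i, v.count i = p - 1) → F v = 0)
    (L : Submodule (ZMod p) (Module.End (ZMod p) (Fn p)))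
    (hX : ∀ i, Xop p i ∈ L) (hL : ∀ x ∈ L, ∀ y ∈ L, x * y - y * x ∈ L)
    (hpow : ∀ z ∈ L, (z ^ (p - 1)) F = 0)
    (hlong : ∀ zs : List (Module.End (ZMod p) (Fn p)), (∀ z ∈ zs, z ∈ L) →
      2 * (p - 1) ≤ zs.length → zs.length < 3 * (p - 1) → cop p F zs = 0)
    (hT : cop p F ((top3 p).map (Xop p)) [] ≠ 0) : GoalP p := by
  have hfact := Fact.mk hp
  have hp2 := hp.two_le
  have hshort : ∀ zs : List (Module.End (ZMod p) (Fn p)), (∀ z ∈ zs, z ∈ L) →
      zs.length < 3 * (p - 1) → cop p F zs = 0 := by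
    intro zs hzs hlen
    by_cases h : zs.length < 2 * (p - 1)
    · exact cop_eq_zero_of_pow F L hL hpow zs hzs h
    · exact hlong zs hzs (not_lt.1 h) hlen
  refine gp_of_words3 hp F _ hT ?_
  intro u v
  rw [← cop_apply]
  have hv : ∀ z ∈ v.map (Xop p), z ∈ L := by
    intro z hz
    obtain ⟨i, _, rfl⟩ := List.mem_map.1 hz
    exact hX i
  by_cases hlen : v.length < 3 * (p - 1)
  · rw [hshort _ hv (by rw [List.length_map]; exact hlen), if_neg]
    · rfl
    · rintro ⟨_, h⟩
      have h1 := length_eq_counts v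
      rw [h, h, h] at h1
      omega
  · by_cases hc : u = [] ∧ (∀ i, v.count i = p - 1)
    · rw [if_pos hc]
      obtain ⟨rfl, hc⟩ := hc
      have hperm : v.Perm (top3 p) := by
        rw [List.perm_iff_count]
        intro i
        rw [hc i, count_top3]
      have hlen' : v.length = 3 * (p - 1) := by
        rw [length_eq_counts v, hc, hc, hc]
        omega
      have h1 := cop_perm (p := p) F (L : Set (Module.End (ZMod p) (Fn p))) hL (3 * (p - 1))
        (fun zs hzs h => hshort zs hzs (by omega)) (v.map (Xop p)) ((top3 p).map (Xop p))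
        (hperm.map _) [] (by rw [List.nil_append, List.length_map]; exact hlen')
        (by rw [List.nil_append]; exact hv)
      rw [List.nil_append, List.nil_append] at h1
      rw [h1]
    · rw [if_neg hc, cop_apply]
      refine csum_eq_zero _ _ ?_
      intro r hr
      apply hcont
      intro h
      have h1 := length_eq_counts (u ++ r)
      rw [h, h, h, List.length_append, hr.length_eq] at h1
      have hu : u = [] := by
        apply List.eq_nil_of_length_eq_zero
        omega
      subst hu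
      apply hc
      refine ⟨rfl, fun i => ?_⟩
      rw [← h i, List.nil_append, hr.count_eq]

end out

section blockB

variable {p : ℕ} [Fact p.Prime]


/-- **Assembly of the two reductions.** -/
theorem gp_of_blocks (F : Fn p)
    (hcont : ∀ v : List (Fin 3), (¬ ∀ i, v.count i = p - 1) → F v = 0)
    (hE : ∀ i j, i ≠ j → Eop p i j F = 0)
    (hpow : ∀ z ∈ lieSum (LieD (ZMod p) (Xop p)), z ^ (p - 1) ∈ IF F)
    (hB1 : ∀ as : List ℕ, (∀ a ∈ as, 1 ≤ a) → as.Pairwise (· ≤ ·) → as.sum ≤ p - 1 →
      Ph p ((lB1 p as.length).map (Xop p)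
        ++ as.map (zy p)) ∈ IF F)
    (hB2 : ∀ s, 1 ≤ s → s < p - 1 →
      Ph p ((lB2 p s).map (Xop p)) ∈ IF F)
    (hT : cop p F ((top3 p).map (Xop p)) [] ≠ 0) : GoalP p := by
  have hp : p.Prime := Fact.out
  have hlongL := long_IF F hcont hE hpow hB1 hB2
  refine gp_of_long hp F hcont (lieSum (LieD (ZMod p) (Xop p))) ?_
    (lieSum_bracket (F := ZMod p) (Xop p)) ?_ ?_ hT
  · intro i
    exact mem_lieSum _ 1 (le_refl 1) (Submodule.subset_span ⟨i, rfl⟩)
  · intro z hz
    exact IF_apply (hpow z hz)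
  · intro zs hzs _ hlen
    have h1 : Ph p zs ∈ IF F := by
      have := mem_of_homog (I := IF F) (p := p) zs.length
        (fun zs' h1 h2 => hlongL zs' h1 (by omega)) zs [] (by simp) hzs (by simp)
      simpa using this
    have h2 := IF_apply h1
    have h3 := Ph_smul (W := Fn p) p F zs
    rw [← h3]
    exact h2

/-- **Assembly with scalar checks.** -/
theorem gp_of_scalars (F : Fn p)
    (hcont : ∀ v : List (Fin 3), (¬ ∀ i, v.count i = p - 1) → F v = 0)
    (hE : ∀ i j, i ≠ j → Eop p i j F = 0)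
    (hpow : ∀ z ∈ lieSum (LieD (ZMod p) (Xop p)), z ^ (p - 1) ∈ IF F)
    (h22l : ∀ w, F (2 :: 2 :: w) = 0) (h22r : ∀ w, F (w ++ [2, 2]) = 0)
    (hS1 : ∀ as ∈ partsLe (p - 1) 1 (p - 1), ∀ i j, i ≤ 1 → j ≤ 1 → i + j + as.sum = p - 1 →
      (cop p (((List.replicate j (2 : Fin 3)).map (Xop p)).prod F) (zs1 p as))
        (List.replicate i 2) = 0)
    (hS2 : ∀ s, 1 ≤ s → s < p - 1 → ∀ i j, i ≤ 1 → j ≤ 1 → i + j + s = p - 1 →
      (cop p (((List.replicate j (2 : Fin 3)).map (Xop p)).prod F) (zs2 p s))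
        (List.replicate i 2) = 0)
    (hT : cop p F ((top3 p).map (Xop p)) [] ≠ 0) : GoalP p := by
  refine gp_of_blocks F hcont hE hpow ?_ ?_ hT
  · intro as h1 h2 h3
    have hlen : as.length ≤ as.sum := by
      have : ∀ as : List ℕ, (∀ a ∈ as, 1 ≤ a) → as.length ≤ as.sum := by
        intro as
        induction as with
        | nil => intro _; simp
        | cons a as ih =>
          intro h
          rw [List.length_cons, List.sum_cons]
          have := ih (fun e he => h e (by simp [he]))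
          have := h a (by simp)
          omega
      exact this as h1
    refine IF_of_scalars F hcont h22l h22r as.sum _ (Ph_zs1_content as (by omega)) ?_
    intro i j hi hj hij
    have := hS1 as (mem_partsLe (p - 1) 1 (p - 1) (le_refl 1) (le_refl _) as h1 h2 h3) i j hi hj hij
    rw [← Ph_smul] at this
    exact this
  · intro s h1 h2
    refine IF_of_scalars F hcont h22l h22r s _ (Ph_zs2_content s) ?_
    intro i j hi hj hij
    have := hS2 s h1 h2 i j hi hj hij
    rw [← Ph_smul] at this
    exact this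

end blockB

end Pool.Agent.Work.MP_bde882_al.Red


namespace Pool.Agent.Work.MP_bde882_al.Fin8

open Finset
open Pool.Agent.Work.MP_bde882_al.Red
open Pool.Agent.Work.MP_bde882_al.H93
open Pool.Agent.Work.MP_bde882_al.H69
open Pool.Agent.Work.MP_bde882_al.H87

attribute [local instance] instFactPrimeOfNatNat_pool

section final

variable (H : HM)


/-- **Final assembly.** -/
theorem gp_of_HM (hd0 : 0 < H.d 0) (hd2 : H.d 2 = 0) (hg : GramSymm H) (hE : DerZero H)
    (hchk : BigCheck H) (h1 : LongOne H) (h2 : LongTwo H) (hT : TopValue H) : GoalP 7 := by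
  have hrev : ∀ v, fH H v.reverse = fH H v := fun v => fH_reverse H hg v
  have hE' : ∀ i j, i ≠ j → Eop 7 i j (fH H) = 0 := by
    intro i j hij
    funext w
    rw [Eop_apply, dsum_eq_der]
    exact hE i j hij w
  have h7 : (7 : Module.End (ZMod 7) (Fn 7)) = 0 := by
    have : (7 : ZMod 7) = 0 := by decide
    apply LinearMap.ext
    intro g
    funext u
    have e : (7 : Module.End (ZMod 7) (Fn 7)) = (7 : ZMod 7) • (1 : Module.End (ZMod 7) (Fn 7)) := by
      rw [← Algebra.algebraMap_eq_smul_one, map_ofNat]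
    rw [e, this, zero_smul]
  refine gp_of_scalars (p := 7) (fH H) ?_ hE' ?_ ?_ (fH_22r H hd0 hd2) h1 h2 hT
  · intro v hv
    refine fH_content H v ?_
    push Not at hv
    exact hv
  · intro z hz
    refine hpow_mem_of_check (p := 7) le_rfl (fH H) hrev (fun v hv => fH_length H v hv) hE'
      (lb (Xop 7)) lbDeg lbDeg_mono (fun i => lb_mem_LieD (Xop 7) i)
      (fun d hd1 hd2 => KD_le (Xop 7) h7 d hd1 hd2) ?_ z hz
    intro c hc _ h18 h5 v hv u _
    have h3 := words_of_BigCheck H hd0 hchk c hc h18 h5 v hv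
    have h4 := inter_Sy H 6 _ _ (fun i => inter_lb H (c i)) (vec (XH H) v0 v)
    rw [Phi_vec, Phi_v0 H hd0] at h4
    rw [← h4, h3, map_zero]
    rfl
  · intro w
    have h5 := hrev (2 :: 2 :: w)
    rw [← h5]
    have h6 : (2 :: 2 :: w).reverse = w.reverse ++ [2, 2] := by simp
    rw [h6]
    exact fH_22r H hd0 hd2 _

end final

end Pool.Agent.Work.MP_bde882_al.Fin8
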